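import Pool.Agent.T9h65.Sq.Cover

set_option autoImplicit false

/-!
The open unit square is paradoxical under the linear action of SL(2,R).
-/

namespace Pool.Agent.T9h65.Sq

open Polynomial Matrix

/-- The open unit square. -/
def Q : Set V := {v | ∀ k, 0 < v k ∧ v k < 1}

/-- Two piecewise linear injections with disjoint images give a paradoxical decomposition. -/
theorem assemble {ι : Type} [Fintype ι] (t : ι → G) (idx : Bool → V → ι)
    (hmem : ∀ c, ∀ v ∈ Q, act (t (idx c v)) v ∈ Q)
    (hinj : ∀ c c' v v', v ∈ Q → v' ∈ Q → act (t (idx c v)) v = act (t (idx c' v')) v' →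
      c = c' ∧ v = v') :
    ∃ (n m : ℕ) (A : Fin n → Set V) (B : Fin m → Set V) (g : Fin n → G) (h : Fin m → G),
      (∀ i, A i ⊆ Q) ∧ (∀ j, B j ⊆ Q) ∧
      Pairwise (fun i i' => Disjoint (A i) (A i')) ∧
      Pairwise (fun j j' => Disjoint (B j) (B j')) ∧
      (∀ i j, Disjoint (A i) (B j)) ∧
      (⋃ i, (fun v => act (g i) v) '' A i) = Q ∧
      (⋃ j, (fun v => act (h j) v) '' B j) = Q := by
  classical
  let e := Fintype.equivFin ι
  let P : Bool → Fin (Fintype.card ι) → Set V := fun c i =>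
    {w | ∃ v ∈ Q, idx c v = e.symm i ∧ w = act (t (idx c v)) v}
  have hsub : ∀ c i, P c i ⊆ Q := by
    rintro c i w ⟨v, hv, _, rfl⟩
    exact hmem c v hv
  have hdis : ∀ c, Pairwise (fun i i' => Disjoint (P c i) (P c i')) := by
    intro c i i' hne
    rw [Set.disjoint_left]
    rintro w ⟨v, hv, h1, h2⟩ ⟨v', hv', h1', h2'⟩
    have h3 := (hinj c c v v' hv hv' (by rw [← h2, ← h2'])).2
    subst h3
    exact hne (e.symm.injective (h1.symm.trans h1'))
  have hun : ∀ c, (⋃ i, (fun v => act ((t (e.symm i))⁻¹) v) '' P c i) = Q := by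
    intro c
    ext w
    simp only [Set.mem_iUnion, Set.mem_image]
    constructor
    · rintro ⟨i, x, ⟨v, hv, h1, rfl⟩, rfl⟩
      rw [← h1, act_inv_act]
      exact hv
    · intro hw
      refine ⟨e (idx c w), act (t (idx c w)) w, ⟨w, hw, by simp, rfl⟩, ?_⟩
      rw [Equiv.symm_apply_apply, act_inv_act]
  refine ⟨_, _, P true, P false, fun i => (t (e.symm i))⁻¹, fun i => (t (e.symm i))⁻¹,
    hsub true, hsub false, hdis true, hdis false, ?_, hun true, hun false⟩
  intro i j
  rw [Set.disjoint_left]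
  rintro w ⟨v, hv, h1, h2⟩ ⟨v', hv', h1', h2'⟩
  have h3 := (hinj true false v v' hv hv' (by rw [← h2, ← h2'])).1
  exact absurd h3 (by simp)

/-- The two elementary matrices. -/
def sh : Bool → G
  | true => ⟨!![1, 1; 0, 1], by simp⟩
  | false => ⟨!![1, 0; 1, 1], by simp⟩

theorem act_sh_true (v : V) : act (sh true) v = ![v 0 + v 1, v 1] := by
  funext k; fin_cases k <;> simp [act, sh, Matrix.mulVec, dotProduct, Fin.sum_univ_two]

theorem act_sh_false (v : V) : act (sh false) v = ![v 0, v 0 + v 1] := by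
  funext k; fin_cases k <;> simp [act, sh, Matrix.mulVec, dotProduct, Fin.sum_univ_two]

theorem main : ∃ (n m : ℕ) (A : Fin n → Set V) (B : Fin m → Set V) (g : Fin n → G)
      (h : Fin m → G),
      (∀ i, A i ⊆ Q) ∧ (∀ j, B j ⊆ Q) ∧
      Pairwise (fun i i' => Disjoint (A i) (A i')) ∧
      Pairwise (fun j j' => Disjoint (B j) (B j')) ∧
      (∀ i j, Disjoint (A i) (B j)) ∧
      (⋃ i, (fun v => act (g i) v) '' A i) = Q ∧
      (⋃ j, (fun v => act (h j) v) '' B j) = Q := by
  classical
  obtain ⟨m, g, hg⟩ := cover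
  obtain ⟨t, htr, ht0, ht1⟩ := exists_transc (1 / (32 * (2 * ((2 * m : ℕ) : ℝ) + 1) ^ 2))
    (by positivity)
  have ht2 : t * (32 * (2 * ((2 * m : ℕ) : ℝ) + 1) ^ 2) ≤ 1 := by
    rw [lt_div_iff₀ (by positivity)] at ht1
    exact ht1.le
  -- the far part
  let R : V → Prop := fun v => v ∈ Q ∧ (1 / 2 ≤ v 0 ∨ 1 / 2 ≤ v 1)
  have hJ : ∀ v, R v → ∃ j, ∀ k, 5 / 8 ≤ act (g j) v k ∧ act (g j) v k ≤ 7 / 8 :=
    fun v hv => hg v hv.1 hv.2
  let J : (v : V) → R v → Fin m := fun v hv => Classical.choose (hJ v hv)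
  have hJs : ∀ v (hv : R v), ∀ k, 5 / 8 ≤ act (g (J v hv)) v k ∧ act (g (J v hv)) v k ≤ 7 / 8 :=
    fun v hv => Classical.choose_spec (hJ v hv)
  let cc : Bool → Fin m → Fin (2 * m) := fun c j => finProdFinEquiv ((if c then 0 else 1 : Fin 2), j)
  have hcc : ∀ c c' j j', cc c j = cc c' j' → c = c' ∧ j = j' := by
    intro c c' j j' h
    have h2 := finProdFinEquiv.injective h
    rw [Prod.mk.injEq] at h2
    refine ⟨?_, h2.2⟩
    have h3 := h2.1
    cases c <;> cases c' <;> simp at h3 ⊢
  let idx : Bool → V → (Fin (2 * m + 1) × Fin m) ⊕ Bool := fun c v =>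
    if hv : R v then Sum.inl (ix t (2 * m) (cc c (J v hv)) (act (g (J v hv)) v), J v hv)
    else Sum.inr c
  let T : (Fin (2 * m + 1) × Fin m) ⊕ Bool → G := fun s =>
    match s with
    | Sum.inl p => gen t p.1 * g p.2
    | Sum.inr c => sh c
  have hfar : ∀ c v (hv : R v), act (T (idx c v)) v =
      Phi t (2 * m) (cc c (J v hv)) (act (g (J v hv)) v) := by
    intro c v hv
    have h1 : idx c v = Sum.inl (ix t (2 * m) (cc c (J v hv)) (act (g (J v hv)) v), J v hv) := by
      simp only [idx, dif_pos hv]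
    rw [h1]
    show act (gen t _ * g _) v = _
    rw [act_mul]
    rfl
  have hnear : ∀ c v, ¬ R v → act (T (idx c v)) v = act (sh c) v := by
    intro c v hv
    have h1 : idx c v = Sum.inr c := by simp only [idx, dif_neg hv]
    rw [h1]
  have hbox : ∀ c v, R v → ∀ k, 1 / 2 < act (T (idx c v)) v k ∧ act (T (idx c v)) v k < 1 := by
    intro c v hv
    rw [hfar c v hv]
    exact gen_box (2 * m) t ht0 ht2 _ (Nat.lt_succ_iff.mp (Fin.is_lt _)) _ (hJs v hv)
  have hnr : ∀ v ∈ Q, ¬ R v → v 0 < 1 / 2 ∧ v 1 < 1 / 2 := by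
    intro v hv h
    constructor
    · by_contra h2
      exact h ⟨hv, Or.inl (not_lt.mp h2)⟩
    · by_contra h2
      exact h ⟨hv, Or.inr (not_lt.mp h2)⟩
  have hne : ∀ v (hv : R v), act (g (J v hv)) v ≠ 0 := by
    intro v hv h
    have h2 := (hJs v hv 0).1
    rw [h] at h2
    simp at h2
    linarith
  apply assemble T idx
  · intro c v hv
    by_cases hR : R v
    · intro k
      have := hbox c v hR k
      exact ⟨by linarith, this.2⟩
    · rw [hnear c v hR]
      obtain ⟨h1, h2⟩ := hnr v hv hR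
      have h3 := (hv 0).1
      have h4 := (hv 1).1
      cases c
      · rw [act_sh_false]
        intro k
        fin_cases k
        · show 0 < v 0 ∧ v 0 < 1
          constructor <;> linarith
        · show 0 < v 0 + v 1 ∧ v 0 + v 1 < 1
          constructor <;> linarith
      · rw [act_sh_true]
        intro k
        fin_cases k
        · show 0 < v 0 + v 1 ∧ v 0 + v 1 < 1
          constructor <;> linarith
        · show 0 < v 1 ∧ v 1 < 1
          constructor <;> linarith
  · -- the images of the near part avoid the box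
    have hsep : ∀ c v, v ∈ Q → ¬ R v → ¬ (1 / 2 < act (sh c) v 0 ∧ 1 / 2 < act (sh c) v 1) := by
      intro c v hv hR
      obtain ⟨h1, h2⟩ := hnr v hv hR
      cases c
      · rw [act_sh_false]
        show ¬ (1 / 2 < v 0 ∧ 1 / 2 < v 0 + v 1)
        intro h; linarith [h.1]
      · rw [act_sh_true]
        show ¬ (1 / 2 < v 0 + v 1 ∧ 1 / 2 < v 1)
        intro h; linarith [h.2]
    intro c c' v v' hv hv' h
    by_cases hR : R v <;> by_cases hR' : R v'
    · rw [hfar c v hR, hfar c' v' hR'] at h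
      obtain ⟨h1, h2⟩ := Phi_inj t htr (2 * m) _ _ _ _ (hne v hR) (hne v' hR') h
      obtain ⟨h3, h4⟩ := hcc _ _ _ _ h1
      refine ⟨h3, ?_⟩
      rw [h4] at h2
      exact act_inj h2
    · exfalso
      have h1 := hbox c v hR
      rw [h, hnear c' v' hR'] at h1
      exact hsep c' v' hv' hR' ⟨(h1 0).1, (h1 1).1⟩
    · exfalso
      have h1 := hbox c' v' hR'
      rw [← h, hnear c v hR] at h1
      exact hsep c v hv hR ⟨(h1 0).1, (h1 1).1⟩
    · rw [hnear c v hR, hnear c' v' hR'] at h
      have h1 := (hv 0).1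
      have h2 := (hv 1).1
      have h3 := (hv' 0).1
      have h4 := (hv' 1).1
      cases c <;> cases c'
      · exact ⟨rfl, act_inj h⟩
      · exfalso
        rw [act_sh_false, act_sh_true] at h
        have h5 : v 0 = v' 0 + v' 1 := congrFun h 0
        have h6 : v 0 + v 1 = v' 1 := congrFun h 1
        linarith
      · exfalso
        rw [act_sh_false, act_sh_true] at h
        have h5 : v 0 + v 1 = v' 0 := congrFun h 0
        have h6 : v 1 = v' 0 + v' 1 := congrFun h 1
        linarith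
      · exact ⟨rfl, act_inj h⟩

end Pool.Agent.T9h65.Sq
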