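import Pool.Agent.T9h65.Sq.Inj

set_option autoImplicit false

/-!
The generators are close to the identity, and finitely many linear maps bring the part of the
square away from the origin into a small box.
-/

namespace Pool.Agent.T9h65.Sq

open Polynomial Matrix

theorem act_gen (t : ℝ) (i : ℕ) (v : V) :
    act (gen t i) v = ![(1 + t + (2 * (i : ℝ) + 1) * t ^ 2) * v 0 - t ^ 2 * v 1,
      ((2 * (2 * (i : ℝ)) + 1) * t + (2 * (i : ℝ)) * (2 * (i : ℝ) + 1) * t ^ 2) * v 0 +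
        (1 - t - 2 * (i : ℝ) * t ^ 2) * v 1] := by
  funext k
  fin_cases k
  all_goals
    simp only [act, Matrix.mulVec, dotProduct, Fin.sum_univ_two, gen_coe, ev_apply, Mp]
    simp [map_ofNat]
    try ring

/-- The generators map the small box into the larger box. -/
theorem gen_box (N : ℕ) (t : ℝ) (ht0 : 0 < t) (ht : t * (32 * (2 * (N : ℝ) + 1) ^ 2) ≤ 1)
    (i : ℕ) (hi : i ≤ N) (v : V) (hv : ∀ k, 5 / 8 ≤ v k ∧ v k ≤ 7 / 8) :
    ∀ k, 1 / 2 < act (gen t i) v k ∧ act (gen t i) v k < 1 := by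
  obtain ⟨h0, h0'⟩ := hv 0
  obtain ⟨h1, h1'⟩ := hv 1
  have hiN : (i : ℝ) ≤ N := by exact_mod_cast hi
  have hi0 : (0 : ℝ) ≤ i := Nat.cast_nonneg i
  rw [act_gen]
  set c : ℝ := 2 * (i : ℝ) with hc
  have hc0 : 0 ≤ c := by positivity
  have hD : t * (32 * (c + 1) ^ 2) ≤ 1 := by
    refine le_trans ?_ ht
    apply mul_le_mul_of_nonneg_left _ ht0.le
    have : (c + 1) ^ 2 ≤ (2 * (N : ℝ) + 1) ^ 2 := by
      apply pow_le_pow_left₀ (by positivity)
      rw [hc]; linarith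
    linarith
  have hD1 : 1 ≤ (c + 1) ^ 2 := by nlinarith
  have ht32 : t ≤ 1 / 32 := by nlinarith
  have htc : t * (c + 1) ≤ 1 / 32 := by nlinarith [mul_nonneg ht0.le hc0]
  have ht2 : 0 < t ^ 2 := by positivity
  have htc2 : 0 ≤ t * c := mul_nonneg ht0.le hc0
  -- the four error terms
  have e1 : 0 ≤ t + (c + 1) * t ^ 2 := by positivity
  have e1' : t + (c + 1) * t ^ 2 ≤ 1 / 16 := by nlinarith
  have e2 : t ^ 2 ≤ 1 / 32 := by nlinarith
  have e3 : 0 ≤ (2 * c + 1) * t + c * (c + 1) * t ^ 2 := by positivity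
  have e3' : (2 * c + 1) * t + c * (c + 1) * t ^ 2 ≤ 1 / 16 + 1 / 32 := by
    have h5 : (2 * c + 1) * t ≤ 1 / 16 := by nlinarith
    have h6 : c * (c + 1) * t ^ 2 ≤ 1 / 32 := by
      have h7 : c * (c + 1) ≤ (c + 1) ^ 2 := by nlinarith
      have h8 : c * (c + 1) * t ≤ 1 / 32 := by nlinarith
      nlinarith
    linarith
  have e4 : 0 ≤ t + c * t ^ 2 := by positivity
  have e4' : t + c * t ^ 2 ≤ 1 / 16 := by nlinarith
  intro k
  fin_cases k
  · show 1 / 2 < (1 + t + (c + 1) * t ^ 2) * v 0 - t ^ 2 * v 1 ∧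
      (1 + t + (c + 1) * t ^ 2) * v 0 - t ^ 2 * v 1 < 1
    have f1 : 0 ≤ (t + (c + 1) * t ^ 2) * v 0 := mul_nonneg e1 (by linarith)
    have f2 : (t + (c + 1) * t ^ 2) * v 0 ≤ 1 / 16 := by nlinarith
    have f3 : 0 ≤ t ^ 2 * v 1 := mul_nonneg ht2.le (by linarith)
    have f4 : t ^ 2 * v 1 ≤ 1 / 32 := by nlinarith
    constructor <;> linarith
  · show 1 / 2 < ((2 * c + 1) * t + c * (c + 1) * t ^ 2) * v 0 +
        (1 - t - c * t ^ 2) * v 1 ∧
      ((2 * c + 1) * t + c * (c + 1) * t ^ 2) * v 0 + (1 - t - c * t ^ 2) * v 1 < 1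
    have f1 : 0 ≤ ((2 * c + 1) * t + c * (c + 1) * t ^ 2) * v 0 := mul_nonneg e3 (by linarith)
    have f2 : ((2 * c + 1) * t + c * (c + 1) * t ^ 2) * v 0 ≤ 1 / 16 + 1 / 32 := by nlinarith
    have f3 : 0 ≤ (t + c * t ^ 2) * v 1 := mul_nonneg e4 (by linarith)
    have f4 : (t + c * t ^ 2) * v 1 ≤ 1 / 16 := by nlinarith
    constructor <;> linarith

/-- There are arbitrarily small positive transcendental numbers. -/
theorem exists_transc (e : ℝ) (he : 0 < e) : ∃ t : ℝ, Transcendental ℤ t ∧ 0 < t ∧ t < e := by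
  have h1 : {x : ℝ | IsAlgebraic ℤ x}.Countable := Algebraic.countable ℤ ℝ
  have h2 : Dense {x : ℝ | IsAlgebraic ℤ x}ᶜ := h1.dense_compl ℝ
  obtain ⟨t, ht1, ht2⟩ := h2.exists_mem_open isOpen_Ioo (Set.nonempty_Ioo.mpr he)
  exact ⟨t, ht1, ht2.1, ht2.2⟩

/-- A matrix of determinant one with prescribed first column. -/
theorem exists_col (v : V) (hv : v ≠ 0) : ∃ g : G, act g ![1, 0] = v := by
  have hr : 0 < v 0 ^ 2 + v 1 ^ 2 := by
    by_contra h
    apply hv
    have h0 : v 0 = 0 := by nlinarith [sq_nonneg (v 0), sq_nonneg (v 1)]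
    have h1 : v 1 = 0 := by nlinarith [sq_nonneg (v 0), sq_nonneg (v 1)]
    funext k
    fin_cases k <;> simp [h0, h1]
  refine ⟨⟨!![v 0, -v 1 / (v 0 ^ 2 + v 1 ^ 2); v 1, v 0 / (v 0 ^ 2 + v 1 ^ 2)], ?_⟩, ?_⟩
  · rw [Matrix.det_fin_two_of]
    field_simp
    ring
  · funext k
    fin_cases k <;> simp [act]

theorem exists_move (v w : V) (hv : v ≠ 0) (hw : w ≠ 0) : ∃ g : G, act g v = w := by
  obtain ⟨g, hg⟩ := exists_col v hv
  obtain ⟨h, hh⟩ := exists_col w hw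
  exact ⟨h * g⁻¹, by rw [act_mul, ← hg, act_inv_act, hh]⟩

theorem act_cont (g : G) : Continuous (act g) := by
  unfold act
  exact Continuous.matrix_mulVec continuous_const continuous_id

/-- Finitely many maps bring the part of the square away from the origin into the small box. -/
theorem cover : ∃ (m : ℕ) (g : Fin m → G), ∀ v : V, (∀ k, 0 < v k ∧ v k < 1) →
    (1 / 2 ≤ v 0 ∨ 1 / 2 ≤ v 1) → ∃ j, ∀ k, 5 / 8 ≤ act (g j) v k ∧ act (g j) v k ≤ 7 / 8 := by
  let K : Set V := Set.Icc 0 1 ∩ ({v | 1 / 2 ≤ v 0} ∪ {v | 1 / 2 ≤ v 1})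
  have hK : IsCompact K := by
    apply isCompact_Icc.inter_right
    apply IsClosed.union
    · exact isClosed_le continuous_const (continuous_apply 0)
    · exact isClosed_le continuous_const (continuous_apply 1)
  let U : G → Set V := fun g => (act g) ⁻¹' {v | ∀ k, 5 / 8 < v k ∧ v k < 7 / 8}
  have hU : ∀ g, IsOpen (U g) := by
    intro g
    apply IsOpen.preimage (act_cont g)
    have h1 : {v : V | ∀ k, 5 / 8 < v k ∧ v k < 7 / 8} =
        Set.pi Set.univ (fun _ => Set.Ioo (5 / 8 : ℝ) (7 / 8)) := by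
      ext v; simp [Set.mem_pi]
    rw [h1]
    exact isOpen_set_pi Set.finite_univ (fun _ _ => isOpen_Ioo)
  have hcov : K ⊆ ⋃ g, U g := by
    intro v hv
    have hne : v ≠ 0 := by
      rintro rfl
      rcases hv.2 with h | h
      · simp at h; linarith
      · simp at h; linarith
    obtain ⟨g, hg⟩ := exists_move v (fun _ => 3 / 4) hne (by
      intro h
      have := congrFun h 0
      simp at this)
    rw [Set.mem_iUnion]
    refine ⟨g, ?_⟩
    show ∀ k, 5 / 8 < act g v k ∧ act g v k < 7 / 8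
    rw [hg]
    intro k
    norm_num
  obtain ⟨T, hT⟩ := hK.elim_finite_subcover U hU hcov
  refine ⟨T.card, fun j => (T.equivFin.symm j : G), ?_⟩
  intro v hv hv2
  have hvK : v ∈ K := ⟨⟨fun k => (hv k).1.le, fun k => (hv k).2.le⟩, hv2⟩
  have h1 := hT hvK
  rw [Set.mem_iUnion₂] at h1
  obtain ⟨g, hgT, hg⟩ := h1
  refine ⟨T.equivFin ⟨g, hgT⟩, ?_⟩
  intro k
  simp only [Equiv.symm_apply_apply]
  exact ⟨(hg k).1.le, (hg k).2.le⟩

end Pool.Agent.T9h65.Sq
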