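import Pool.Agent.T9h65.Sq.Trace

set_option autoImplicit false

/-!
A free action of a free group of infinite rank gives injections of several copies of a set into
the union of the translates of the set by the generators.
-/

namespace Pool.Agent.T9h65.Sq

open Polynomial Matrix

/-- The plane. -/
abbrev V := Fin 2 → ℝ

/-- The special linear group. -/
abbrev G := SpecialLinearGroup (Fin 2) ℝ

/-- The linear action. -/
noncomputable def act (g : G) (v : V) : V := (g : Matrix (Fin 2) (Fin 2) ℝ).mulVec v

theorem act_mul (g h : G) (v : V) : act (g * h) v = act g (act h v) := by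
  rw [act, act, act, Matrix.SpecialLinearGroup.coe_mul, Matrix.mulVec_mulVec]

theorem act_one (v : V) : act 1 v = v := by simp [act]

theorem act_inv_act (g : G) (v : V) : act g⁻¹ (act g v) = v := by
  rw [← act_mul, inv_mul_cancel, act_one]

theorem act_act_inv (g : G) (v : V) : act g (act g⁻¹ v) = v := by
  rw [← act_mul, mul_inv_cancel, act_one]

theorem act_zero (g : G) : act g 0 = 0 := by simp [act]

theorem act_inj {g : G} {v w : V} (h : act g v = act g w) : v = w := by
  rw [← act_inv_act g v, h, act_inv_act]

theorem act_ne_zero {g : G} {v : V} (h : v ≠ 0) : act g v ≠ 0 := by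
  intro h2
  rw [← act_zero g] at h2
  exact h (act_inj h2)

/-- The orbit relation of the free group. -/
def orb (t : ℝ) : Setoid V where
  r x y := ∃ w : FreeGroup ℕ, act (rho t w) x = y
  iseqv :=
    { refl := fun x => ⟨1, by rw [map_one, act_one]⟩
      symm := by
        rintro x y ⟨w, rfl⟩
        exact ⟨w⁻¹, by rw [map_inv, act_inv_act]⟩
      trans := by
        rintro x y z ⟨w, rfl⟩ ⟨u, rfl⟩
        exact ⟨u * w, by rw [map_mul, act_mul]⟩ }

/-- A base point in each orbit. -/
noncomputable def base (t : ℝ) (x : V) : V := Quotient.out (Quotient.mk (orb t) x)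

theorem base_spec (t : ℝ) (x : V) : ∃ w : FreeGroup ℕ, act (rho t w) (base t x) = x :=
  Quotient.exact (Quotient.out_eq (Quotient.mk (orb t) x))

theorem base_act (t : ℝ) (u : FreeGroup ℕ) (x : V) : base t (act (rho t u) x) = base t x := by
  have h : Quotient.mk (orb t) (act (rho t u) x) = Quotient.mk (orb t) x :=
    Quotient.sound ((orb t).symm ⟨u, rfl⟩)
  simp only [base, h]

/-- The word leading from the base point to the point. -/
noncomputable def wd (t : ℝ) (x : V) : FreeGroup ℕ := Classical.choose (base_spec t x)

theorem wd_spec (t : ℝ) (x : V) : act (rho t (wd t x)) (base t x) = x :=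
  Classical.choose_spec (base_spec t x)

theorem wd_act (t : ℝ) (ht : Transcendental ℤ t) (u : FreeGroup ℕ) (x : V) (hx : x ≠ 0) :
    wd t (act (rho t u) x) = u * wd t x := by
  have h1 := wd_spec t (act (rho t u) x)
  rw [base_act] at h1
  have h2 : act (rho t (u * wd t x)) (base t x) = act (rho t u) x := by
    rw [map_mul, act_mul, wd_spec]
  have h3 : act (rho t ((u * wd t x)⁻¹ * wd t (act (rho t u) x))) (base t x) = base t x := by
    rw [map_mul, act_mul, h1, ← h2, map_inv, act_inv_act]
  have hb : base t x ≠ 0 := by
    intro h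
    have h4 := wd_spec t x
    rw [h, act_zero] at h4
    exact hx h4.symm
  by_contra hne
  refine rho_free t ht _ ?_ (base t x) hb h3
  intro h5
  exact hne (inv_mul_eq_one.mp h5).symm

theorem toWord_cons (i : ℕ) (w : FreeGroup ℕ) (h : w.toWord.head? ≠ some (i, false)) :
    (FreeGroup.of i * w).toWord = (i, true) :: w.toWord := by
  rw [FreeGroup.toWord_mul, FreeGroup.toWord_of, List.singleton_append, FreeGroup.reduce.cons,
    FreeGroup.reduce_toWord]
  cases hw : w.toWord with
  | nil => rfl
  | cons a L =>
    rw [hw] at h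
    simp only [List.head?_cons, ne_eq, Option.some.injEq] at h
    have h2 : ¬ (i = a.1 ∧ (true = !a.2)) := by
      rintro ⟨h3, h4⟩
      apply h
      rcases a with ⟨j, b⟩
      simp at h3 h4
      simp [h3, h4]
    simp only [h2, if_false]

open Classical in
/-- The generator to be avoided at a point. -/
noncomputable def av (t : ℝ) (N : ℕ) (x : V) : Fin (N + 1) :=
  if h : ∃ i : Fin (N + 1), (wd t x).toWord.head? = some ((i : ℕ), false) then
    Classical.choose h else 0

/-- The index of the generator to be applied. -/
noncomputable def ix (t : ℝ) (N : ℕ) (j : Fin N) (x : V) : Fin (N + 1) :=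
  (av t N x).succAbove j

theorem ix_spec (t : ℝ) (N : ℕ) (j : Fin N) (x : V) :
    (wd t x).toWord.head? ≠ some ((ix t N j x : ℕ), false) := by
  intro h
  have hex : ∃ i : Fin (N + 1), (wd t x).toWord.head? = some ((i : ℕ), false) := ⟨_, h⟩
  have h2 : (wd t x).toWord.head? = some ((av t N x : ℕ), false) := by
    rw [av, dif_pos hex]
    exact Classical.choose_spec hex
  rw [h] at h2
  simp only [Option.some.injEq, Prod.mk.injEq, and_true] at h2
  exact Fin.succAbove_ne (av t N x) j (Fin.ext h2)

/-- The injection. -/
noncomputable def Phi (t : ℝ) (N : ℕ) (j : Fin N) (x : V) : V := act (gen t (ix t N j x)) x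

theorem wd_Phi (t : ℝ) (ht : Transcendental ℤ t) (N : ℕ) (j : Fin N) (x : V) (hx : x ≠ 0) :
    (wd t (Phi t N j x)).toWord.head? = some ((ix t N j x : ℕ), true) := by
  have h1 : gen t (ix t N j x) = rho t (FreeGroup.of (ix t N j x : ℕ)) := by
    rw [rho, FreeGroup.lift_apply_of]
  rw [Phi, h1, wd_act t ht _ x hx, toWord_cons _ _ (ix_spec t N j x)]
  rfl

theorem Phi_inj (t : ℝ) (ht : Transcendental ℤ t) (N : ℕ) (j j' : Fin N) (x x' : V)
    (hx : x ≠ 0) (hx' : x' ≠ 0) (h : Phi t N j x = Phi t N j' x') : j = j' ∧ x = x' := by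
  have h1 := wd_Phi t ht N j x hx
  have h2 := wd_Phi t ht N j' x' hx'
  rw [h, h2] at h1
  simp only [Option.some.injEq, Prod.mk.injEq, and_true] at h1
  have h3 : ix t N j' x' = ix t N j x := Fin.ext h1
  have h4 : x = x' := by
    have h5 : act (gen t (ix t N j x)) x = act (gen t (ix t N j x)) x' := by
      have h6 : act (gen t (ix t N j x)) x = act (gen t (ix t N j' x')) x' := h
      rw [h3] at h6
      exact h6
    exact act_inj h5
  subst h4
  exact ⟨(Fin.succAbove_right_injective h3).symm, rfl⟩

end Pool.Agent.T9h65.Sq
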