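import Mathlib

set_option autoImplicit false

/-!
Free subgroups of SL(2,R) all of whose nontrivial elements have no eigenvalue one, with generators
near the identity.
-/

namespace Pool.Agent.T9h65.Sq

open Polynomial Matrix

/-- The matrix attached to a letter, as a matrix over the integer polynomials. -/
noncomputable def Mp (l : ℕ × Bool) : Matrix (Fin 2) (Fin 2) ℤ[X] :=
  match l with
  | (i, true) => !![1 + X + C (2 * (i : ℤ) + 1) * X ^ 2, - X ^ 2;
      C (2 * (2 * (i : ℤ)) + 1) * X + C ((2 * (i : ℤ)) * (2 * (i : ℤ) + 1)) * X ^ 2,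
      1 - X - C (2 * (i : ℤ)) * X ^ 2]
  | (i, false) => !![1 - X - C (2 * (i : ℤ)) * X ^ 2, X ^ 2;
      - (C (2 * (2 * (i : ℤ)) + 1) * X + C ((2 * (i : ℤ)) * (2 * (i : ℤ) + 1)) * X ^ 2),
      1 + X + C (2 * (i : ℤ) + 1) * X ^ 2]

/-- The slope of a letter. -/
def sl (l : ℕ × Bool) : ℤ := if l.2 then 2 * (l.1 : ℤ) else 2 * (l.1 : ℤ) + 1

theorem sl_ne {l m : ℕ × Bool} (h : l ≠ m) : sl l ≠ sl m := by
  rcases l with ⟨i, b⟩
  rcases m with ⟨j, c⟩
  intro h2
  apply h
  cases b <;> cases c <;> simp [sl] at h2 ⊢ <;> omega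

/-- The inverse letter. -/
def iv (l : ℕ × Bool) : ℕ × Bool := (l.1, !l.2)

/-- The column vector of a letter. -/
def uu (l : ℕ × Bool) : Fin 2 → ℤ := ![1, sl l]

/-- The row vector of a letter. -/
def vv (l : ℕ × Bool) : Fin 2 → ℤ := if l.2 then ![sl (iv l), -1] else ![-sl (iv l), 1]

theorem vv_uu {l m : ℕ × Bool} (h : m ≠ iv l) : dotProduct (vv l) (uu m) ≠ 0 := by
  have h2 := sl_ne h
  rcases l with ⟨i, b⟩
  cases b <;> simp [vv, uu, dotProduct, Fin.sum_univ_two] at h2 ⊢
  · intro h3; exact h2 (by linarith)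
  · intro h3; exact h2 (by linarith)

/-- Degree and leading coefficient control for a matrix of polynomials. -/
def Lead (M : Matrix (Fin 2) (Fin 2) ℤ[X]) (d : ℕ) (N : Matrix (Fin 2) (Fin 2) ℤ) : Prop :=
  ∀ i j, (M i j).natDegree ≤ d ∧ (M i j).coeff d = N i j

theorem Lead.mul {M M' : Matrix (Fin 2) (Fin 2) ℤ[X]} {d d' : ℕ}
    {N N' : Matrix (Fin 2) (Fin 2) ℤ} (h : Lead M d N) (h' : Lead M' d' N') :
    Lead (M * M') (d + d') (N * N') := by
  intro i j
  rw [Matrix.mul_apply, Matrix.mul_apply]
  constructor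
  · apply Polynomial.natDegree_sum_le_of_forall_le
    intro k _
    exact le_trans Polynomial.natDegree_mul_le (add_le_add (h i k).1 (h' k j).1)
  · rw [Polynomial.finsetSum_coeff]
    refine Finset.sum_congr rfl fun k _ => ?_
    rw [Polynomial.coeff_mul_add_eq_of_natDegree_le (h i k).1 (h' k j).1, (h i k).2, (h' k j).2]

theorem lead_one : Lead 1 0 1 := by
  intro i j
  by_cases hij : i = j
  · subst hij; simp
  · simp [Matrix.one_apply_ne hij]

theorem lead_Mp (l : ℕ × Bool) : Lead (Mp l) 2 (vecMulVec (uu l) (vv l)) := by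
  rcases l with ⟨i, b⟩
  intro r s
  cases b <;> fin_cases r <;> fin_cases s
  all_goals
    simp only [Mp, uu, vv, sl, iv, vecMulVec, Matrix.of_apply, Matrix.cons_val', Matrix.cons_val_zero,
      Matrix.cons_val_one, Fin.zero_eta, Fin.mk_one, Matrix.cons_val_fin_one]
  all_goals
    constructor
    · compute_degree
    · simp only [Polynomial.coeff_add, Polynomial.coeff_sub, Polynomial.coeff_neg,
        Polynomial.coeff_one, Polynomial.coeff_X, Polynomial.coeff_C_mul, Polynomial.coeff_X_pow]
      simp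
      try ring

/-- The product of the leading matrices along a reduced word has rank one. -/
theorem prod_lead : ∀ (L : List (ℕ × Bool)) (a : ℕ × Bool), FreeGroup.IsReduced (a :: L) →
    ∃ κ : ℤ, κ ≠ 0 ∧ ((a :: L).map (fun l => vecMulVec (uu l) (vv l))).prod =
      κ • vecMulVec (uu a) (vv ((a :: L).getLast (List.cons_ne_nil a L))) := by
  intro L
  induction L with
  | nil => intro a _; exact ⟨1, one_ne_zero, by simp⟩
  | cons b L ih =>
    intro a h
    rw [FreeGroup.isReduced_cons_cons] at h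
    obtain ⟨κ, hκ, hp⟩ := ih b h.2
    refine ⟨κ * dotProduct (vv a) (uu b), mul_ne_zero hκ (vv_uu ?_), ?_⟩
    · intro hb
      rw [hb] at h
      have := h.1 rfl
      simp [iv] at this
    · rw [List.map_cons, List.prod_cons, hp, List.getLast_cons (List.cons_ne_nil b L)]
      rw [Matrix.mul_smul, Matrix.vecMulVec_mul_vecMulVec]
      rw [Matrix.vecMulVec_smul, smul_smul]

/-- The product of the letter matrices. -/
noncomputable def MP (L : List (ℕ × Bool)) : Matrix (Fin 2) (Fin 2) ℤ[X] := (L.map Mp).prod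

theorem lead_MP (L : List (ℕ × Bool)) :
    Lead (MP L) (2 * L.length) ((L.map (fun l => vecMulVec (uu l) (vv l))).prod) := by
  induction L with
  | nil => exact lead_one
  | cons a L ih =>
    have h := (lead_Mp a).mul ih
    simp only [MP, List.map_cons, List.prod_cons, List.length_cons] at h ⊢
    rw [show 2 * (L.length + 1) = 2 + 2 * L.length by ring]
    exact h

theorem Mp_iv (l : ℕ × Bool) : Mp l * Mp (iv l) = 1 := by
  rcases l with ⟨i, b⟩
  cases b
  all_goals
    simp only [Mp, iv, Bool.not_false, Bool.not_true]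
    apply Matrix.ext
    intro r s
    fin_cases r <;> fin_cases s
    all_goals
      simp [Matrix.mul_apply, Fin.sum_univ_two]
      try ring

theorem det_Mp (l : ℕ × Bool) : (Mp l).det = 1 := by
  rcases l with ⟨i, b⟩
  cases b
  all_goals
    simp only [Mp, Matrix.det_fin_two_of]
    simp
    try ring

/-- The trace of a cyclically reduced word has the expected degree. -/
theorem trace_cyc (L : List (ℕ × Bool)) (a : ℕ × Bool) (h : FreeGroup.IsReduced (a :: L))
    (hc : a ≠ iv ((a :: L).getLast (List.cons_ne_nil a L))) : (MP (a :: L)).trace ≠ 2 := by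
  intro ht
  obtain ⟨κ, hκ, hp⟩ := prod_lead L a h
  have hl := lead_MP (a :: L)
  rw [hp] at hl
  have h1 : (MP (a :: L)).trace.coeff (2 * (a :: L).length) =
      κ * dotProduct (vv ((a :: L).getLast (List.cons_ne_nil a L))) (uu a) := by
    rw [Matrix.trace_fin_two, Polynomial.coeff_add, (hl 0 0).2, (hl 1 1).2]
    simp [vecMulVec, dotProduct, Fin.sum_univ_two]
    ring
  rw [ht] at h1
  have h2 : (2 : ℤ[X]).coeff (2 * (a :: L).length) = 0 := by
    rw [show (2 : ℤ[X]) = C 2 by simp, Polynomial.coeff_C]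
    simp
  rw [h2] at h1
  exact mul_ne_zero hκ (vv_uu hc) h1.symm

theorem trace_ne (n : ℕ) : ∀ L : List (ℕ × Bool), L.length ≤ n → L ≠ [] →
    FreeGroup.IsReduced L → (MP L).trace ≠ 2 := by
  induction n with
  | zero => intro L h1 h2; simp at h1; exact absurd h1 h2
  | succ n ih =>
    intro L hlen hne hred
    obtain ⟨a, L', rfl⟩ := List.exists_cons_of_ne_nil hne
    by_cases hc : a = iv ((a :: L').getLast (List.cons_ne_nil a L'))
    · -- conjugate
      rcases List.eq_nil_or_concat L' with h | ⟨L'', b, h⟩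
      · subst h
        simp [iv] at hc
        exfalso
        have := congrArg Prod.snd hc
        simp at this
      · rw [List.concat_eq_append] at h
        subst h
        have hb : a = iv b := by simpa using hc
        subst hb
        have h3 : (MP (iv b :: (L'' ++ [b]))).trace = (MP L'').trace := by
          simp only [MP, List.map_cons, List.prod_cons, List.map_append, List.prod_append,
            List.map_nil, List.prod_nil, mul_one]
          rw [Matrix.trace_mul_comm, Matrix.mul_assoc, Mp_iv, Matrix.mul_one]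
        rw [h3]
        have hne2 : L'' ≠ [] := by
          rintro rfl
          rw [List.nil_append, FreeGroup.isReduced_cons_cons] at hred
          have := hred.1 rfl
          simp [iv] at this
        have hred2 : FreeGroup.IsReduced L'' := by
          unfold FreeGroup.IsReduced at hred ⊢
          exact (List.isChain_append.mp (List.IsChain.tail hred)).1
        apply ih L'' _ hne2 hred2
        simp at hlen
        omega
    · exact trace_cyc L' a hred hc

/-- Evaluation of a matrix of polynomials at a real number. -/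
noncomputable def ev (t : ℝ) : Matrix (Fin 2) (Fin 2) ℤ[X] →+* Matrix (Fin 2) (Fin 2) ℝ :=
  (Polynomial.aeval t : ℤ[X] →ₐ[ℤ] ℝ).toRingHom.mapMatrix

theorem ev_apply (t : ℝ) (M : Matrix (Fin 2) (Fin 2) ℤ[X]) (i j : Fin 2) :
    ev t M i j = Polynomial.aeval t (M i j) := rfl

/-- The generators of the free group. -/
noncomputable def gen (t : ℝ) (i : ℕ) : SpecialLinearGroup (Fin 2) ℝ :=
  ⟨ev t (Mp (i, true)), by
    rw [ev, ← RingHom.map_det, det_Mp, map_one]⟩

theorem gen_coe (t : ℝ) (i : ℕ) :
    ((gen t i : SpecialLinearGroup (Fin 2) ℝ) : Matrix (Fin 2) (Fin 2) ℝ) = ev t (Mp (i, true)) :=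
  rfl

theorem gen_inv_coe (t : ℝ) (i : ℕ) :
    (((gen t i)⁻¹ : SpecialLinearGroup (Fin 2) ℝ) : Matrix (Fin 2) (Fin 2) ℝ) =
      ev t (Mp (i, false)) := by
  have h1 : ev t (Mp (i, true)) * ev t (Mp (i, false)) = 1 := by
    rw [← map_mul, show Mp (i, true) * Mp (i, false) = 1 from Mp_iv (i, true), map_one]
  have h2 : (((gen t i)⁻¹ : SpecialLinearGroup (Fin 2) ℝ) : Matrix (Fin 2) (Fin 2) ℝ) *
      ev t (Mp (i, true)) = 1 := by
    rw [← gen_coe, ← Matrix.SpecialLinearGroup.coe_mul, inv_mul_cancel,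
      Matrix.SpecialLinearGroup.coe_one]
  calc _ = (((gen t i)⁻¹ : SpecialLinearGroup (Fin 2) ℝ) : Matrix (Fin 2) (Fin 2) ℝ) *
      (ev t (Mp (i, true)) * ev t (Mp (i, false))) := by rw [h1, Matrix.mul_one]
    _ = _ := by rw [← Matrix.mul_assoc, h2, Matrix.one_mul]

/-- The representation of the free group. -/
noncomputable def rho (t : ℝ) : FreeGroup ℕ →* SpecialLinearGroup (Fin 2) ℝ :=
  FreeGroup.lift (gen t)

theorem rho_mk (t : ℝ) (L : List (ℕ × Bool)) :
    ((rho t (FreeGroup.mk L) : SpecialLinearGroup (Fin 2) ℝ) : Matrix (Fin 2) (Fin 2) ℝ) =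
      ev t (MP L) := by
  rw [rho, FreeGroup.lift_mk]
  induction L with
  | nil => simp [MP]
  | cons a L ih =>
    rw [List.map_cons, List.prod_cons, Matrix.SpecialLinearGroup.coe_mul, ih]
    rw [MP, MP, List.map_cons, List.prod_cons, map_mul]
    congr 1
    rcases a with ⟨i, b⟩
    cases b
    · exact gen_inv_coe t i
    · rfl

theorem fix_trace (M : Matrix (Fin 2) (Fin 2) ℝ) (hd : M.det = 1) (v : Fin 2 → ℝ) (hv : v ≠ 0)
    (h : M.mulVec v = v) : M.trace = 2 := by
  have h1 : (M - 1).mulVec v = 0 := by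
    rw [Matrix.sub_mulVec, h, Matrix.one_mulVec, sub_self]
  have h2 : (M - 1).det = 0 := Matrix.exists_mulVec_eq_zero_iff.mp ⟨v, hv, h1⟩
  rw [Matrix.det_fin_two] at h2 hd
  rw [Matrix.trace_fin_two]
  simp at h2
  linarith

/-- For transcendental parameter, no nontrivial element of the free group fixes a nonzero
vector. -/
theorem rho_free (t : ℝ) (ht : Transcendental ℤ t) (w : FreeGroup ℕ) (hw : w ≠ 1)
    (v : Fin 2 → ℝ) (hv : v ≠ 0) :
    ((rho t w : SpecialLinearGroup (Fin 2) ℝ) : Matrix (Fin 2) (Fin 2) ℝ).mulVec v ≠ v := by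
  intro h
  have h1 := fix_trace _ (rho t w).2 v hv h
  have h2 : ((rho t w : SpecialLinearGroup (Fin 2) ℝ) : Matrix (Fin 2) (Fin 2) ℝ) =
      ev t (MP w.toWord) := by rw [← rho_mk, FreeGroup.mk_toWord]
  have h3 : (MP w.toWord).trace ≠ 2 := by
    apply trace_ne _ _ le_rfl
    · intro h4
      exact hw (FreeGroup.toWord_eq_nil_iff.mp h4)
    · exact FreeGroup.isReduced_toWord
  have h4 : Polynomial.aeval t (MP w.toWord).trace = 2 := by
    rw [← h1, h2, Matrix.trace_fin_two, Matrix.trace_fin_two, map_add]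
    rfl
  rw [transcendental_iff] at ht
  have h5 := ht ((MP w.toWord).trace - 2) (by rw [map_sub, h4, map_ofNat, sub_self])
  exact h3 (sub_eq_zero.mp h5)

end Pool.Agent.T9h65.Sq
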